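import Pool.Agent.R469.Flip

/-!
# An automorphism of the tree of standard Young tableaux which is not made of transposes

`SYT` is the type of all standard Young tableaux, `tabTree IsYoung` the tree of all of them (every
tableau is joined to those obtained by adding one cell with the next entry), `IsTransposeAut T τ`
says that `τ` is the transpose automorphism of `T`. Let `T` have shape `(3, 2, 1)`. Its four
children have the shapes `(4, 2, 1)`, `(3, 2, 1, 1)` and `(3, 3, 1)`, `(3, 2, 2)`. Exchanging the
branches of the first pair only is an automorphism; it does not agree, on the tableaux with at most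
`7` cells, with any composition of transpose automorphisms, because such a composition conjugates
the shapes of all children of a vertex or of none.
-/

namespace Pool.Agent.Results.MP_edc67c_co.NotTransposes

open Pool.Agent.R469 Pool.Agent.R469.Flip Pool.Agent.R469.Tab

/-- Lists of cells which are standard Young tableaux. -/
def Good (L : List (ℕ × ℕ)) : Prop :=
  L.Nodup ∧ (∀ c ∈ L, (c.1 = 0 ∨ (c.1 - 1, c.2) ∈ L) ∧ (c.2 = 0 ∨ (c.1, c.2 - 1) ∈ L)) ∧
    ∀ c ∈ L, ∀ d ∈ L, (d = (c.1, c.2 + 1) ∨ d = (c.1 + 1, c.2)) → L.idxOf c < L.idxOf d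

instance (L : List (ℕ × ℕ)) : Decidable (Good L) := by
  unfold Good
  infer_instance

theorem young_of_good {L : List (ℕ × ℕ)} (h : Good L) : IsYoung L.toFinset := by
  have h1 : ∀ n m i j, (i, j) ∈ L → (i - n, j - m) ∈ L := by
    intro n
    induction n with
    | zero =>
      intro m
      induction m with
      | zero => intro i j hij; exact hij
      | succ m ih =>
        intro i j hij
        have h2 := ih i j hij
        rcases (h.2.1 _ h2).2 with h3 | h3
        · simp only at h3
          have : j - (m + 1) = j - m := by omega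
          rw [this]
          exact h2
        · exact h3
    | succ n ih =>
      intro m i j hij
      have h2 := ih m i j hij
      rcases (h.2.1 _ h2).1 with h3 | h3
      · simp only at h3
        have : i - (n + 1) = i - n := by omega
        rw [this]
        exact h2
      · exact h3
  refine ⟨⟨L.toFinset, ?_⟩, rfl⟩
  intro c d hdc hc
  obtain ⟨i, j⟩ := c
  obtain ⟨i', j'⟩ := d
  obtain ⟨h2, h3⟩ := Prod.mk_le_mk.1 hdc
  have hc' : (i, j) ∈ L := by simpa using hc
  have h4 := h1 (i - i') (j - j') i j hc'
  rw [show i - (i - i') = i' by omega, show j - (j - j') = j' by omega] at h4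
  simpa using h4

/-- The tableau whose entry `m + 1` is in the cell `L[m]`. -/
def ofList (L : List (ℕ × ℕ)) (h : Good L) : SYT where
  shape := L.toFinset
  ok := young_of_good h
  entry c := if c ∈ L then L.idxOf c + 1 else 0
  zero c hc := by
    rw [if_neg (fun h => hc (List.mem_toFinset.2 h))]
  bij := by
    apply bij_of_inj
    · intro c hc
      rw [List.mem_toFinset] at hc
      rw [if_pos hc, List.toFinset_card_of_nodup h.1]
      have := List.idxOf_lt_length_of_mem hc
      omega
    · intro c hc d hd
      rw [List.mem_toFinset] at hc hd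
      rw [if_pos hc, if_pos hd]
      intro h1
      exact (List.idxOf_inj hc).1 (by omega)
  row i j h1 h2 := by
    rw [List.mem_toFinset] at h1 h2
    rw [if_pos h1, if_pos h2]
    have := h.2.2 _ h1 _ h2 (Or.inl rfl)
    omega
  col i j h1 h2 := by
    rw [List.mem_toFinset] at h1 h2
    rw [if_pos h1, if_pos h2]
    have := h.2.2 _ h1 _ h2 (Or.inr rfl)
    omega

theorem child_ofList {L : List (ℕ × ℕ)} {x : ℕ × ℕ} (h : Good L) (h' : Good (L ++ [x])) :
    IsChild (ofList L h) (ofList (L ++ [x]) h') := by
  refine ⟨?_, ?_, ?_⟩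
  · intro c hc
    have : c ∈ L := List.mem_toFinset.1 hc
    exact List.mem_toFinset.2 (List.mem_append_left _ this)
  · show (L ++ [x]).toFinset.card = L.toFinset.card + 1
    rw [List.toFinset_card_of_nodup h.1, List.toFinset_card_of_nodup h'.1]
    simp
  · intro c hc
    have hc : c ∈ L := List.mem_toFinset.1 hc
    show (if c ∈ L ++ [x] then (L ++ [x]).idxOf c + 1 else 0) = if c ∈ L then L.idxOf c + 1 else 0
    rw [if_pos hc, if_pos (List.mem_append_left _ hc), List.idxOf_append_of_mem hc]

/-- Preserves the size and conjugates the shapes of all children of a vertex or of none. -/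
def Uniform (ψ : tabTree IsYoung ≃g tabTree IsYoung) : Prop :=
  (∀ U : SYT, (ψ U).shape.card = U.shape.card) ∧
    ∀ V : SYT, (∀ W, IsChild V W → (ψ W).shape = W.shape) ∨
      (∀ W, IsChild V W → (ψ W).shape = W.shape.image Prod.swap)

theorem child_map {ψ : tabTree IsYoung ≃g tabTree IsYoung}
    (h : ∀ U : SYT, (ψ U).shape.card = U.shape.card) {V W : SYT} (H : IsChild V W) :
    IsChild (ψ V) (ψ W) := by
  have h1 : (tabTree IsYoung).Adj (ψ V) (ψ W) := ψ.map_rel_iff.2 (Or.inl H)
  rcases h1 with h1 | h1
  · exact h1
  · exfalso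
    have h2 := h1.2.1
    rw [h, h] at h2
    have h3 := H.2.1
    omega

theorem swap_swap (s : Finset (ℕ × ℕ)) : (s.image Prod.swap).image Prod.swap = s := by
  ext c
  rw [swap_mem, swap_mem, Prod.swap_swap]

theorem uniform_transpose {T : SYT} {τ : tabTree IsYoung ≃g tabTree IsYoung}
    (H : IsTransposeAut T τ) : Uniform τ := by
  obtain ⟨hT, H⟩ := H
  have hdesc : ∀ U, IsDesc T U → (τ U).shape = U.shape.image Prod.swap := by
    intro U hU
    ext ⟨i, j⟩
    rw [swap_mem]
    exact ((H U).1 hU).1 i j
  constructor
  · intro U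
    by_cases hU : IsDesc T U
    · rw [hdesc U hU, card_swap]
    · rw [(H U).2 hU]
  · intro V
    by_cases hV : IsDesc T V
    · right
      intro W hW
      exact hdesc W (desc_trans_child hW hV)
    · left
      intro W hW
      by_cases hW' : IsDesc T W
      · have h1 := eq_of_desc hW hW' hV
        subst h1
        rw [hdesc T hW']
        ext ⟨i, j⟩
        rw [swap_mem]
        exact (hT i j).symm
      · rw [(H W).2 hW']

theorem uniform_closure {ψ : tabTree IsYoung ≃g tabTree IsYoung}
    (hψ : ψ ∈ Subgroup.closure {τ : tabTree IsYoung ≃g tabTree IsYoung | ∃ T, IsTransposeAut T τ}) :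
    Uniform ψ := by
  induction hψ using Subgroup.closure_induction with
  | mem τ hτ =>
    obtain ⟨T, hT⟩ := hτ
    exact uniform_transpose hT
  | one => exact ⟨fun U => rfl, fun V => Or.inl fun W _ => rfl⟩
  | mul f g _ _ hf hg =>
    refine ⟨fun U => ?_, fun V => ?_⟩
    · rw [RelIso.mul_apply, hf.1, hg.1]
    · rcases hg.2 V with h1 | h1
      · rcases hf.2 (g V) with h2 | h2
        · left
          intro W hW
          rw [RelIso.mul_apply, h2 _ (child_map hg.1 hW), h1 W hW]
        · right
          intro W hW
          rw [RelIso.mul_apply, h2 _ (child_map hg.1 hW), h1 W hW]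
      · rcases hf.2 (g V) with h2 | h2
        · right
          intro W hW
          rw [RelIso.mul_apply, h2 _ (child_map hg.1 hW), h1 W hW]
        · left
          intro W hW
          rw [RelIso.mul_apply, h2 _ (child_map hg.1 hW), h1 W hW, swap_swap]
  | inv f _ hf =>
    have hcard : ∀ U : SYT, (f⁻¹ U).shape.card = U.shape.card := by
      intro U
      have := hf.1 (f⁻¹ U)
      rw [← this]
      simp
    refine ⟨hcard, fun V => ?_⟩
    rcases hf.2 (f⁻¹ V) with h1 | h1
    · left
      intro W hW
      have h2 := h1 (f⁻¹ W) (child_map hcard hW)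
      rw [← h2]
      simp
    · right
      intro W hW
      have h2 := h1 (f⁻¹ W) (child_map hcard hW)
      have h3 : f (f⁻¹ W) = W := by simp
      rw [h3] at h2
      rw [h2, swap_swap]

/-- The tableau `1 2 3 / 4 5 / 6`. -/
def L0 : List (ℕ × ℕ) := [(0, 0), (0, 1), (0, 2), (1, 0), (1, 1), (2, 0)]

theorem good0 : Good L0 := by decide
theorem good1 : Good (L0 ++ [(0, 3)]) := by decide
theorem good2 : Good (L0 ++ [(1, 2)]) := by decide

theorem symm0 : IsSymm (ofList L0 good0) := by
  intro i j
  show (i, j) ∈ L0.toFinset ↔ (j, i) ∈ L0.toFinset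
  simp only [L0, List.mem_toFinset, List.mem_cons, Prod.mk.injEq, List.not_mem_nil, or_false]
  omega

/-- The cells `(0, 3)` and `(3, 0)`. -/
def P0 (c : ℕ × ℕ) : Prop := c = (0, 3) ∨ c = (3, 0)

theorem P0_swap : ∀ c, P0 c → P0 c.swap := by
  rintro c (rfl | rfl)
  · exact Or.inr rfl
  · exact Or.inl rfl

/-- Every tableau of symmetric shape has its transpose automorphism; but there are an automorphism
`φ` of the tree of all standard Young tableaux and a number `N` such that no composition `ψ` of
transpose automorphisms agrees with `φ` on all tableaux with at most `N` cells. -/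
theorem result :
    (∀ T : SYT, IsSymm T → ∃ τ : tabTree IsYoung ≃g tabTree IsYoung, IsTransposeAut T τ) ∧
    ∃ (φ : tabTree IsYoung ≃g tabTree IsYoung) (N : ℕ),
      ∀ ψ ∈ Subgroup.closure {τ : tabTree IsYoung ≃g tabTree IsYoung | ∃ T, IsTransposeAut T τ},
        ∃ U : SYT, U.shape.card ≤ N ∧ φ U ≠ ψ U := by
  refine ⟨exists_transposeAut, autP (ofList L0 good0) symm0 P0 P0_swap, 7, ?_⟩
  intro ψ hψ
  have hu := uniform_closure hψ
  by_contra hcon
  push Not at hcon
  set T := ofList L0 good0 with hTdef
  set W1 := ofList (L0 ++ [(0, 3)]) good1 with hW1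
  set W2 := ofList (L0 ++ [(1, 2)]) good2 with hW2
  have c1 : IsChild T W1 := child_ofList good0 good1
  have c2 : IsChild T W2 := child_ofList good0 good2
  have e1 := hcon W1 (by decide)
  have e2 := hcon W2 (by decide)
  have d1 : IsDesc T W1 := ⟨c1.1, c1.2.2⟩
  have d2 : IsDesc T W2 := ⟨c2.1, c2.2.2⟩
  have f1 : (autP T symm0 P0 P0_swap W1).shape = W1.shape.image Prod.swap := by
    have hc : Cond T P0 W1 := ⟨d1, (0, 3), by decide, by decide, Or.inl rfl⟩
    have : autP T symm0 P0 P0_swap W1 = flip T symm0 W1 hc.1 := flipP_pos hc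
    rw [this]
    rfl
  have f2 : autP T symm0 P0 P0_swap W2 = W2 := by
    apply flipP_neg
    rintro ⟨-, c, hc, hce, hcP⟩
    have hc' : c ∈ L0 ++ [(1, 2)] := List.mem_toFinset.1 hc
    rcases hcP with rfl | rfl
    · revert hc'
      decide
    · revert hc'
      decide
  have hd : W1.shape ≠ W1.shape.image Prod.swap := by decide
  have hd2 : W2.shape ≠ W2.shape.image Prod.swap := by decide
  rcases hu.2 T with h1 | h1
  · have h2 := h1 W1 c1
    rw [← e1, f1] at h2
    exact hd h2.symm
  · have h2 := h1 W2 c2
    rw [← e2, f2] at h2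
    exact hd2 h2

end Pool.Agent.Results.MP_edc67c_co.NotTransposes
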